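import Pool.Agent.Helper69.HG.J4

/-! The jets of the block integrals; bounds for `log ((j+1)/j)`. -/

open Finset Polynomial MeasureTheory

namespace Pool.Agent.Helper69.HG

/-- the antiderivative of the jet under the integral -/
lemma Eb_poly {a b : ℝ} (ha : 0 < a) (hab : a ≤ b) (y : ℝ) :
    IntervalIntegrable (fun u : ℝ => 1 / u - y + y ^ 2 * u / 2 - y ^ 3 * u ^ 2 / 6) volume a b ∧
    ∫ u in a..b, (1 / u - y + y ^ 2 * u / 2 - y ^ 3 * u ^ 2 / 6) =
      Real.log (b / a) - (b - a) * y + (b ^ 2 - a ^ 2) / 4 * y ^ 2 - (b ^ 3 - a ^ 3) / 18 * y ^ 3 := by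
  have hpos : ∀ u ∈ Set.uIcc a b, 0 < u := by
    intro u hu
    rw [Set.uIcc_of_le hab] at hu
    exact lt_of_lt_of_le ha hu.1
  have hint : IntervalIntegrable (fun u : ℝ => 1 / u - y + y ^ 2 * u / 2 - y ^ 3 * u ^ 2 / 6) volume a b := by
    refine ContinuousOn.intervalIntegrable ?_
    have h1 : ContinuousOn (fun u : ℝ => 1 / u) (Set.uIcc a b) :=
      continuousOn_const.div continuousOn_id fun u hu => (hpos u hu).ne'
    fun_prop
  refine ⟨hint, ?_⟩
  have hd : ∀ u ∈ Set.uIcc a b, HasDerivAt (fun u : ℝ => Real.log u - y * u + y ^ 2 * u ^ 2 / 4 - y ^ 3 * u ^ 3 / 18)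
      (1 / u - y + y ^ 2 * u / 2 - y ^ 3 * u ^ 2 / 6) u := by
    intro u hu
    have hu0 := (hpos u hu).ne'
    have h1 := Real.hasDerivAt_log hu0
    have h2 : HasDerivAt (fun u : ℝ => y * u) y u := by simpa using (hasDerivAt_id u).const_mul y
    have h3 : HasDerivAt (fun u : ℝ => y ^ 2 * u ^ 2 / 4) (y ^ 2 * u / 2) u := by
      have := ((hasDerivAt_pow 2 u).const_mul (y ^ 2)).div_const 4
      refine this.congr_deriv ?_
      push_cast; ring
    have h4 : HasDerivAt (fun u : ℝ => y ^ 3 * u ^ 3 / 18) (y ^ 3 * u ^ 2 / 6) u := by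
      have := ((hasDerivAt_pow 3 u).const_mul (y ^ 3)).div_const 18
      refine this.congr_deriv ?_
      push_cast; ring
    have := ((h1.sub h2).add h3).sub h4
    refine this.congr_deriv ?_
    rw [one_div]
  rw [intervalIntegral.integral_eq_sub_of_hasDerivAt hd hint, Real.log_div (hpos b Set.right_mem_uIcc).ne' ha.ne']
  ring

theorem J_Eb (j : ℕ) (h1 : 1 ≤ j) (h2 : j ≤ 159) : J (Eb j) (V4.mk (Real.log (((j : ℝ) + 1) / j)) (1 / 160)
    ((2 * (j : ℝ) + 1) / (4 * 160 ^ 2)) ((3 * (j : ℝ) ^ 2 + 3 * j + 1) / (18 * 160 ^ 3))) := by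
  have hj : (1 : ℝ) ≤ j := by exact_mod_cast h1
  have hj' : (j : ℝ) ≤ 159 := by exact_mod_cast h2
  obtain ⟨a, ha⟩ : ∃ a : ℝ, a = (j : ℝ) / 160 := ⟨_, rfl⟩
  obtain ⟨b, hb⟩ : ∃ b : ℝ, b = ((j : ℝ) + 1) / 160 := ⟨_, rfl⟩
  have ha0 : 0 < a := by rw [ha]; positivity
  have hba : b - a = 1 / 160 := by rw [ha, hb]; ring
  have hab : a ≤ b := by linarith
  have hb1 : b ≤ 1 := by rw [hb]; linarith
  refine ⟨1, by norm_num, fun y h0 hy => ?_⟩
  obtain ⟨hi2, hP⟩ := Eb_poly ha0 hab y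
  have hpos : ∀ u ∈ Set.uIcc a b, 0 < u := by
    intro u hu
    rw [Set.uIcc_of_le hab] at hu
    exact lt_of_lt_of_le ha0 hu.1
  have hi1 : IntervalIntegrable (fun u : ℝ => Real.exp (-(y * u)) / u) volume a b := by
    refine ContinuousOn.intervalIntegrable ?_
    exact (by fun_prop : ContinuousOn (fun u : ℝ => Real.exp (-(y * u))) (Set.uIcc a b)).div continuousOn_id
      fun u hu => (hpos u hu).ne'
  have hpv : pv (V4.mk (Real.log (((j : ℝ) + 1) / j)) (1 / 160)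
      ((2 * (j : ℝ) + 1) / (4 * 160 ^ 2)) ((3 * (j : ℝ) ^ 2 + 3 * j + 1) / (18 * 160 ^ 3))) y =
      ∫ u in a..b, (1 / u - y + y ^ 2 * u / 2 - y ^ 3 * u ^ 2 / 6) := by
    rw [hP]
    have e : b / a = ((j : ℝ) + 1) / j := by
      rw [ha, hb]; field_simp
    rw [e]
    unfold pv
    rw [ha, hb]
    ring
  have hE : Eb j y = ∫ u in a..b, Real.exp (-(y * u)) / u := by rw [ha, hb]; rfl
  rw [hpv, hE, ← intervalIntegral.integral_sub hi1 hi2]
  have key : ∀ u ∈ Set.uIoc a b, ‖Real.exp (-(y * u)) / u - (1 / u - y + y ^ 2 * u / 2 - y ^ 3 * u ^ 2 / 6)‖ ≤ y ^ 4 := by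
    intro u hu
    rw [Set.uIoc_of_le hab] at hu
    have hu0 : 0 < u := ha0.trans hu.1
    have hu1 : u ≤ 1 := hu.2.trans hb1
    have ht := exp_jet (t := y * u) (mul_nonneg h0 hu0.le) (mul_le_one₀ hy hu0.le hu1)
    have e : Real.exp (-(y * u)) / u - (1 / u - y + y ^ 2 * u / 2 - y ^ 3 * u ^ 2 / 6) =
        (Real.exp (-(y * u)) - (1 - y * u + (y * u) ^ 2 / 2 - (y * u) ^ 3 / 6)) / u := by
      field_simp
    rw [Real.norm_eq_abs, e, abs_div, abs_of_pos hu0, div_le_iff₀ hu0]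
    refine ht.trans ?_
    rw [mul_pow]
    refine mul_le_mul_of_nonneg_left ?_ (by positivity)
    calc u ^ 4 ≤ u ^ 1 := pow_le_pow_of_le_one hu0.le hu1 (by norm_num)
      _ = u := pow_one u
  have := intervalIntegral.norm_integral_le_of_norm_le_const key
  rw [Real.norm_eq_abs] at this
  refine this.trans ?_
  rw [hba, one_mul]
  have h4 : 0 ≤ y ^ 4 := by positivity
  calc y ^ 4 * |(1 : ℝ) / 160| ≤ y ^ 4 * 1 := mul_le_mul_of_nonneg_left (by rw [abs_of_pos] <;> norm_num) h4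
    _ = y ^ 4 := mul_one _

/-- `⌊10^10 log ((j+1)/j)⌋`, `1 ≤ j ≤ 31` -/
def loL : List ℕ :=
  [0, 6931471805, 4054651081, 2876820724, 2231435513, 1823215567, 1541506798, 1335313926, 1177830356,
   1053605156, 953101798, 870113769, 800427076, 741079721, 689928714, 645385211, 606246218,
   571584138, 540672212, 512932943, 487901641, 465200156, 444517625, 425596144, 408219945,
   392207131, 377403279, 363676441, 350913198, 339015516, 327898228, 317486983]

/-- `⌊10^10 log ((j+1)/j)⌋` -/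
def lo (j : ℕ) : ℕ := loL.getD j 0

/-- the logarithm by the series of `artanh` -/
lemma log_ser (j : ℕ) (h1 : 1 ≤ j) :
    2 * ∑ i ∈ range 12, (1 / (2 * (j : ℝ) + 1)) ^ (2 * i + 1) / (2 * (i : ℝ) + 1) ≤ Real.log (((j : ℝ) + 1) / j) ∧
    Real.log (((j : ℝ) + 1) / j) ≤ 2 * ((∑ i ∈ range 12, (1 / (2 * (j : ℝ) + 1)) ^ (2 * i + 1) / (2 * (i : ℝ) + 1)) +
      (1 / (2 * (j : ℝ) + 1)) ^ (2 * 12 + 1) / (1 - (1 / (2 * (j : ℝ) + 1)) ^ 2)) := by
  have hj : (1 : ℝ) ≤ j := by exact_mod_cast h1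
  have hx0 : (0 : ℝ) ≤ 1 / (2 * (j : ℝ) + 1) := by positivity
  have hx1 : 1 / (2 * (j : ℝ) + 1) < 1 := by rw [div_lt_one (by positivity)]; linarith
  have e : (1 + 1 / (2 * (j : ℝ) + 1)) / (1 - 1 / (2 * (j : ℝ) + 1)) = ((j : ℝ) + 1) / j := by
    have h3 : (0 : ℝ) < j := by linarith
    have h2 : (2 * (j : ℝ) + 1) ≠ 0 := by positivity
    have h4 : 1 - 1 / (2 * (j : ℝ) + 1) = 2 * j / (2 * j + 1) := by field_simp; ring
    have h5 : 1 + 1 / (2 * (j : ℝ) + 1) = 2 * (j + 1) / (2 * j + 1) := by field_simp; ring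
    rw [h4, h5, div_div_div_cancel_right₀ h2, mul_div_mul_left _ _ (by norm_num : (2 : ℝ) ≠ 0)]
  have hl := Real.sum_range_le_log_div hx0 hx1 12
  have hu := Real.log_div_le_sum_range_add hx0 hx1 12
  rw [e] at hl hu
  constructor <;> linarith

theorem log_bds : ∀ j : ℕ, 1 ≤ j → j ≤ 31 → (lo j : ℝ) / 10 ^ 10 ≤ Real.log (((j : ℝ) + 1) / j) ∧
    Real.log (((j : ℝ) + 1) / j) ≤ ((lo j : ℝ) + 1) / 10 ^ 10 := by
  intro j h1 h2
  obtain ⟨hl, hu⟩ := log_ser j h1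
  refine ⟨le_trans ?_ hl, hu.trans ?_⟩
  · clear hl hu
    interval_cases j <;> simp only [Finset.sum_range_succ, Finset.sum_range_zero] <;> norm_num [lo, loL]
  · clear hl hu
    interval_cases j <;> simp only [Finset.sum_range_succ, Finset.sum_range_zero] <;> norm_num [lo, loL]

end Pool.Agent.Helper69.HG
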